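import Mathlib

/-!
Close projections of a unital C*-algebra are equivalent.
-/

set_option autoImplicit false
set_option linter.unusedSimpArgs false

namespace Pool.Agent.Y547.EL

/-- equivalence of projections -/
def Eqv {E : Type} [CStarAlgebra E] (p q : E) : Prop := ∃ v : E, star v * v = p ∧ v * star v = q

lemma Eqv.trans {E : Type} [CStarAlgebra E] {p q r : E} (hpp : p * p = p) (hrr : r * r = r)
    (h1 : Eqv p q) (h2 : Eqv q r) : Eqv p r := by
  obtain ⟨v, hv1, hv2⟩ := h1
  obtain ⟨w, hw1, hw2⟩ := h2
  refine ⟨w * v, ?_, ?_⟩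
  · calc star (w * v) * (w * v) = star v * (star w * w) * v := by
          rw [star_mul]; simp only [mul_assoc]
      _ = (star v * v) * (star v * v) := by rw [hw1, ← hv2]; simp only [mul_assoc]
      _ = p := by rw [hv1, hpp]
  · calc w * v * star (w * v) = w * (v * star v) * star w := by
          rw [star_mul]; simp only [mul_assoc]
      _ = (w * star w) * (w * star w) := by rw [hv2, ← hw1]; simp only [mul_assoc]
      _ = r := by rw [hw2, hrr]

lemma Eqv.rfl {E : Type} [CStarAlgebra E] {p : E} (hp : star p = p) (hpp : p * p = p) :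
    Eqv p p := ⟨p, by rw [hp, hpp], by rw [hp, hpp]⟩

theorem close {E : Type} [CStarAlgebra E] {p q : E} (hp : star p = p) (hpp : p * p = p)
    (hq : star q = q) (hqq : q * q = q) (h : ‖p - q‖ < 1) : Eqv p q := by
  rcases subsingleton_or_nontrivial E with hE | hE
  · exact ⟨0, Subsingleton.elim _ _, Subsingleton.elim _ _⟩
  have hp1 : ∀ x : E, p * (p * x) = p * x := fun x => by rw [← mul_assoc, hpp]
  have hq1 : ∀ x : E, q * (q * x) = q * x := fun x => by rw [← mul_assoc, hqq]
  set z : E := q * p + (1 - q) * (1 - p) with hz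
  set w : E := 1 - (p - q) * (p - q) with hw
  have hzs : star z = p * q + (1 - p) * (1 - q) := by
    rw [hz]; simp only [star_add, star_mul, star_sub, star_one, hp, hq]
  have hzz : star z * z = w := by
    rw [hzs, hz, hw]
    simp only [mul_add, add_mul, mul_sub, sub_mul, mul_assoc, hpp, hqq, hp1, hq1, mul_one, one_mul]
    abel
  have hzz' : z * star z = w := by
    rw [hzs, hz, hw]
    simp only [mul_add, add_mul, mul_sub, sub_mul, mul_assoc, hpp, hqq, hp1, hq1, mul_one, one_mul]
    abel
  have hpw : p * w = w * p := by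
    rw [hw]
    simp only [mul_add, add_mul, mul_sub, sub_mul, mul_assoc, hpp, hqq, hp1, hq1, mul_one, one_mul]
    abel
  have hqz : q * z = z * p := by
    rw [hz]
    simp only [mul_add, add_mul, mul_sub, sub_mul, mul_assoc, hpp, hqq, hp1, hq1, mul_one, one_mul]
    abel
  have hwsa : IsSelfAdjoint w := by
    rw [isSelfAdjoint_iff, hw]
    simp only [star_sub, star_mul, star_one, hp, hq]
  have hzw : Commute z w := by
    have : z * w = w * z := by
      nth_rewrite 1 [← hzz]
      rw [← mul_assoc, hzz']
    exact this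
  have hspec : ∀ x ∈ spectrum ℝ w, 0 < x := by
    intro x hx
    have h1 : 1 - x ∈ spectrum ℝ ((p - q) * (p - q)) := by
      rw [spectrum.mem_iff] at hx ⊢
      intro hu
      apply hx
      have e : (algebraMap ℝ E) x - w = -((algebraMap ℝ E) (1 - x) - (p - q) * (p - q)) := by
        rw [hw, map_sub, map_one]; abel
      rw [e]
      exact hu.neg
    have h2 := spectrum.norm_le_norm_of_mem h1
    have h3 : ‖(p - q) * (p - q)‖ ≤ ‖p - q‖ * ‖p - q‖ := norm_mul_le _ _
    have h4 : ‖p - q‖ * ‖p - q‖ < 1 := by
      have := norm_nonneg (p - q)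
      nlinarith
    have h5 : |1 - x| < 1 := by
      rw [← Real.norm_eq_abs]; linarith
    have := (abs_lt.mp h5).2
    linarith
  let f : ℝ → ℝ := fun x => (Real.sqrt x)⁻¹
  have hf : ContinuousOn f (spectrum ℝ w) := by
    refine ContinuousOn.inv₀ Real.continuous_sqrt.continuousOn ?_
    intro x hx
    exact (Real.sqrt_pos.mpr (hspec x hx)).ne'
  set g : E := cfc f w with hg
  have hgs : star g = g := (cfc_predicate f w : IsSelfAdjoint (cfc f w))
  have hid : cfc (fun x : ℝ => x) w = w := cfc_id' ℝ w hwsa
  have hgwg : g * w * g = 1 := by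
    have e1 : cfc f w * cfc (fun x : ℝ => x) w * cfc f w = cfc (fun x => f x * x * f x) w := by
      rw [← cfc_mul f (fun x => x) w hf continuousOn_id, ← cfc_mul (fun x => f x * x) f w
        (hf.mul continuousOn_id) hf]
    rw [hid, ← hg] at e1
    rw [e1, cfc_congr (g := fun _ => (1 : ℝ)), cfc_const_one ℝ w hwsa]
    intro x hx
    have h0 := hspec x hx
    have h1 : Real.sqrt x ≠ 0 := (Real.sqrt_pos.mpr h0).ne'
    have h2 : Real.sqrt x * Real.sqrt x = x := Real.mul_self_sqrt h0.le
    show (Real.sqrt x)⁻¹ * x * (Real.sqrt x)⁻¹ = 1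
    field_simp
    rw [sq]; exact h2.symm
  have hgp : g * p = p * g := (Commute.cfc_real (show Commute w p from hpw.symm) f)
  have hgz : g * z = z * g := (Commute.cfc_real hzw.symm f)
  have hgzs : g * star z = star z * g := by
    have := congrArg star hgz
    simp only [star_mul, hgs] at this
    exact this.symm
  refine ⟨z * g * p, ?_, ?_⟩
  · calc star (z * g * p) * (z * g * p) = p * (g * (star z * z) * g) * p := by
          simp only [star_mul, hp, hgs]; simp only [mul_assoc]
      _ = p := by rw [hzz, hgwg, mul_one, hpp]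
  · calc z * g * p * star (z * g * p) = z * (g * (p * p)) * g * star z := by
          simp only [star_mul, hp, hgs]; simp only [mul_assoc]
      _ = z * p * g * (g * star z) := by rw [hpp, hgp]; simp only [mul_assoc]
      _ = q * ((z * g) * (star z * g)) := by rw [← hqz, hgzs]; simp only [mul_assoc]
      _ = q * (g * (z * star z) * g) := by rw [← hgz]; simp only [mul_assoc]
      _ = q := by rw [hzz', hgwg, mul_one]

end Pool.Agent.Y547.EL
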