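import Pool.Agent.Y269.EL.Stm2
import Pool.Agent.Y547.EL.Close

/-!
A homotopy of projections gives an equivalence of the end points.
-/

set_option autoImplicit false

namespace Pool.Agent.Y547.EL

open Filter Topology Set
open Pool.Agent.Y269.EL

section

variable {H : Type} [NormedAddCommGroup H] [InnerProductSpace ℂ H] [CompleteSpace H]

/-- bounded even functions which are strongly continuous together with their adjoints -/
structure KF (d : ℕ → ℕ) (F : {u : Pt // u ∈ XX d} → (H →L[ℂ] H)) : Prop where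
  bdd : ∃ C : ℝ, ∀ t, ‖F t‖ ≤ C
  cont : ∀ ξ : H, Continuous fun t => F t ξ
  cont' : ∀ ξ : H, Continuous fun t => (star (F t)) ξ
  even : ∀ t s : {u : Pt // u ∈ XX d}, ∀ k, s.1 = flp k t.1 → F s = F t

lemma cont_mul {T : Type} [TopologicalSpace T] {F F' : T → (H →L[ℂ] H)} {C : ℝ}
    (hC : ∀ t, ‖F t‖ ≤ C) (h1 : ∀ ξ : H, Continuous fun t => F t ξ)
    (h2 : ∀ ξ : H, Continuous fun t => F' t ξ) (ξ : H) :
    Continuous fun t => (F t * F' t) ξ := by
  rw [continuous_iff_continuousAt]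
  intro t0
  have e : (fun t => (F t * F' t) ξ) = fun t => F t (F' t ξ - F' t0 ξ) + F t (F' t0 ξ) := by
    funext t
    rw [map_sub, sub_add_cancel]; rfl
  have h3 : Tendsto (fun t => F t (F' t ξ - F' t0 ξ)) (𝓝 t0) (𝓝 0) := by
    have h4 : Tendsto (fun t => C * ‖F' t ξ - F' t0 ξ‖) (𝓝 t0) (𝓝 0) := by
      have h5 : Tendsto (fun t => F' t ξ - F' t0 ξ) (𝓝 t0) (𝓝 (F' t0 ξ - F' t0 ξ)) :=
        ((h2 ξ).tendsto t0).sub_const _
      rw [sub_self] at h5
      have h6 := h5.norm.const_mul C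
      simpa using h6
    refine squeeze_zero_norm (fun t => ?_) h4
    refine ((F t).le_opNorm _).trans ?_
    exact mul_le_mul_of_nonneg_right (hC t) (norm_nonneg _)
  have h7 := h3.add ((h1 (F' t0 ξ)).tendsto t0)
  rw [zero_add] at h7
  rw [ContinuousAt, e]
  exact h7

lemma cont_lim {T : Type} [TopologicalSpace T] {F : T → (H →L[ℂ] H)}
    (h : ∀ ε : ℝ, 0 < ε → ∃ F' : T → (H →L[ℂ] H), (∀ ξ : H, Continuous fun t => F' t ξ) ∧
      ∀ t, ‖F t - F' t‖ ≤ ε) (ξ : H) : Continuous fun t => F t ξ := by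
  refine continuous_of_uniform_approx_of_continuous fun u hu => ?_
  obtain ⟨ε, hε, hu'⟩ := Metric.mem_uniformity_dist.mp hu
  have hpos : 0 < ε / (2 * (‖ξ‖ + 1)) := by positivity
  obtain ⟨F', hF', hn⟩ := h _ hpos
  refine ⟨fun t => F' t ξ, hF' ξ, fun t => hu' ?_⟩
  rw [dist_eq_norm]
  have e : F t ξ - F' t ξ = (F t - F' t) ξ := rfl
  rw [e]
  calc ‖(F t - F' t) ξ‖ ≤ ‖F t - F' t‖ * ‖ξ‖ := (F t - F' t).le_opNorm ξ
    _ ≤ ε / (2 * (‖ξ‖ + 1)) * (‖ξ‖ + 1) := by
        refine mul_le_mul (hn t) (by linarith) (norm_nonneg _) hpos.le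
    _ = ε / 2 := by
        have : ‖ξ‖ + 1 ≠ 0 := by positivity
        field_simp
    _ < ε := by linarith

lemma isFA (d : ℕ → ℕ) : IsFA {F : {u : Pt // u ∈ XX d} → (H →L[ℂ] H) | KF d F} where
  bdd F hF := hF.bdd
  scal c := {
    bdd := ⟨‖c • (1 : H →L[ℂ] H)‖, fun _ => le_rfl⟩
    cont := fun ξ => continuous_const
    cont' := fun ξ => continuous_const
    even := fun _ _ _ _ => rfl }
  add F hF F' hF' := by
    obtain ⟨C, hC⟩ := hF.bdd
    obtain ⟨C', hC'⟩ := hF'.bdd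
    exact {
      bdd := ⟨C + C', fun t => (norm_add_le _ _).trans (add_le_add (hC t) (hC' t))⟩
      cont := fun ξ => (hF.cont ξ).add (hF'.cont ξ)
      cont' := fun ξ => by
        have e : (fun t => (star (F t + F' t)) ξ) = fun t => (star (F t)) ξ + (star (F' t)) ξ := by
          funext t; rw [star_add]; rfl
        rw [e]
        exact (hF.cont' ξ).add (hF'.cont' ξ)
      even := fun t s k h => by rw [hF.even t s k h, hF'.even t s k h] }
  mul F hF F' hF' := by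
    obtain ⟨C, hC⟩ := hF.bdd
    obtain ⟨C', hC'⟩ := hF'.bdd
    exact {
      bdd := ⟨C * C', fun t => (norm_mul_le _ _).trans
        (mul_le_mul (hC t) (hC' t) (norm_nonneg _) ((norm_nonneg _).trans (hC t)))⟩
      cont := fun ξ => cont_mul hC hF.cont hF'.cont ξ
      cont' := fun ξ => by
        have e : (fun t => (star (F t * F' t)) ξ) = fun t => (star (F' t) * star (F t)) ξ := by
          funext t; rw [star_mul]
        rw [e]
        exact cont_mul (C := C') (fun t => by rw [norm_star]; exact hC' t) hF'.cont' hF.cont' ξ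
      even := fun t s k h => by rw [hF.even t s k h, hF'.even t s k h] }
  star F hF := by
    obtain ⟨C, hC⟩ := hF.bdd
    exact {
      bdd := ⟨C, fun t => by rw [norm_star]; exact hC t⟩
      cont := hF.cont'
      cont' := fun ξ => by simpa only [star_star] using hF.cont ξ
      even := fun t s k h => by rw [hF.even t s k h] }
  lim F hF := by
    refine { bdd := ?_, cont := ?_, cont' := ?_, even := ?_ }
    · obtain ⟨F', hF', hn⟩ := hF 1 one_pos
      obtain ⟨C, hC⟩ := hF'.bdd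
      refine ⟨1 + C, fun t => ?_⟩
      have e : F t = (F t - F' t) + F' t := by abel
      rw [e]
      exact (norm_add_le _ _).trans (add_le_add (hn t) (hC t))
    · exact cont_lim fun ε hε => by
        obtain ⟨F', hF', hn⟩ := hF ε hε
        exact ⟨F', hF'.cont, hn⟩
    · exact cont_lim fun ε hε => by
        obtain ⟨F', hF', hn⟩ := hF ε hε
        refine ⟨fun t => star (F' t), hF'.cont', fun t => ?_⟩
        rw [← star_sub, norm_star]
        exact hn t
    · intro t s k h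
      have h1 : ∀ ε : ℝ, 0 < ε → ‖F s - F t‖ ≤ 0 + ε := by
        intro ε hε
        obtain ⟨F', hF', hn⟩ := hF (ε / 2) (by linarith)
        have h2 := hF'.even t s k h
        have e : F s - F t = (F s - F' s) - (F t - F' t) := by rw [h2]; abel
        rw [e]
        refine (norm_sub_le _ _).trans ?_
        have h3 := hn s
        have h4 := hn t
        linarith
      have h5 : ‖F s - F t‖ ≤ 0 := le_of_forall_pos_le_add h1
      exact sub_eq_zero.mp (norm_le_zero_iff.mp h5)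

lemma sc_cont (A : Amb H) (d : ℕ → ℕ) (P : ℝ → Pt → Pt → (H →L[ℂ] H) → (H →L[ℂ] H))
    (h : SC (Dom A d) (fun z => P z.1 z.2.1 z.2.2.1 z.2.2.2)) (τ : ℝ) (hτ : τ ∈ Icc (0 : ℝ) 1)
    (ξ : H) : (Continuous fun t : {u : Pt // u ∈ XX d} => P τ t.1 t.1 1 ξ) ∧
      Continuous fun t : {u : Pt // u ∈ XX d} => (star (P τ t.1 t.1 1)) ξ := by
  have hdom : ∀ t : {u : Pt // u ∈ XX d}, (τ, t.1, t.1, (1 : H →L[ℂ] H)) ∈ Dom A d :=
    fun t => ⟨hτ, t.2, t.2, (GM A).one_mem⟩
  have hct : Continuous (fun t : {u : Pt // u ∈ XX d} => (τ, t.1, t.1, (1 : H →L[ℂ] H))) :=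
    continuous_const.prodMk (continuous_subtype_val.prodMk
      (continuous_subtype_val.prodMk continuous_const))
  have h1 := (h.cont ξ).comp_continuous hct hdom
  have h2 := (h.cont' ξ).comp_continuous hct hdom
  exact ⟨h1, h2⟩

end

/-- a homotopy of projections gives an equivalence -/
theorem hom (H : Type) [NormedAddCommGroup H] [InnerProductSpace ℂ H] [CompleteSpace H]
    [Nontrivial H] (hFA : FaStmt H) (hI : IseStmt H) : HomStmt H := by
  intro A G hG P hP hPr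
  obtain ⟨rep⟩ := hFA _ {F : {u : Pt // u ∈ XX G.d} → (H →L[ℂ] H) | KF G.d F} (isFA G.d)
  have h1mem : (1 : H →L[ℂ] H) ∈ GM A := (GM A).one_mem
  have hQ : ∀ τ : ℝ, τ ∈ Icc (0 : ℝ) 1 →
      KF G.d (fun t : {u : Pt // u ∈ XX G.d} => P τ t.1 t.1 1) := by
    intro τ hτ
    have hdom : ∀ t : {u : Pt // u ∈ XX G.d}, (τ, t.1, t.1, (1 : H →L[ℂ] H)) ∈ Dom A G.d :=
      fun t => ⟨hτ, t.2, t.2, h1mem⟩
    obtain ⟨C, hC⟩ := hP.sc.bdd
    refine { bdd := ⟨C, fun t => hC _ (hdom t)⟩, cont := ?_, cont' := ?_, even := ?_ }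
    · intro ξ
      exact (sc_cont A G.d P hP.sc τ hτ ξ).1
    · intro ξ
      exact (sc_cont A G.d P hP.sc τ hτ ξ).2
    · intro t s k h
      have hf : flp k t.1 ∈ XX G.d := hI.flp G.d t.1 t.2 k
      show P τ s.1 s.1 1 = P τ t.1 t.1 1
      rw [h, hP.ev1 τ hτ t.1 t.2 _ hf 1 h1mem k, hP.ev2 τ hτ t.1 t.2 t.1 t.2 1 h1mem k]
  have hex : ∀ τ : ℝ, ∃ x : rep.E, τ ∈ Icc (0 : ℝ) 1 → ∀ t, rep.ev t x = P τ t.1 t.1 1 := by
    intro τ
    by_cases hτ : τ ∈ Icc (0 : ℝ) 1
    · obtain ⟨x, hx⟩ := rep.surj _ (hQ τ hτ)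
      exact ⟨x, fun _ => hx⟩
    · exact ⟨0, fun h => absurd h hτ⟩
  choose q hq using hex
  have hinj : ∀ x y : rep.E, (∀ t, rep.ev t x = rep.ev t y) → x = y := by
    intro x y h
    have h1 : ‖x - y‖ ≤ 0 := by
      refine rep.norm_le _ 0 le_rfl fun t => ?_
      rw [map_sub, h t, sub_self, norm_zero]
    exact sub_eq_zero.mp (norm_le_zero_iff.mp h1)
  have hqs : ∀ τ ∈ Icc (0 : ℝ) 1, star (q τ) = q τ := by
    intro τ hτ
    refine hinj _ _ fun t => ?_
    rw [map_star, hq τ hτ t]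
    exact (hPr τ hτ t.1 t.2 t.1 t.2 1 h1mem).1
  have hqq : ∀ τ ∈ Icc (0 : ℝ) 1, q τ * q τ = q τ := by
    intro τ hτ
    refine hinj _ _ fun t => ?_
    rw [map_mul, hq τ hτ t]
    exact (hPr τ hτ t.1 t.2 t.1 t.2 1 h1mem).2
  obtain ⟨δ, hδ, hδ'⟩ := hP.eqc (1 / 2) (by norm_num)
  have hstep : ∀ τ ∈ Icc (0 : ℝ) 1, ∀ τ' ∈ Icc (0 : ℝ) 1, |τ - τ'| < δ → Eqv (q τ) (q τ') := by
    intro τ hτ τ' hτ' h
    refine close (hqs τ hτ) (hqq τ hτ) (hqs τ' hτ') (hqq τ' hτ') ?_
    have h1 : ‖q τ - q τ'‖ ≤ 1 / 2 := by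
      refine rep.norm_le _ _ (by norm_num) fun t => ?_
      rw [map_sub, hq τ hτ t, hq τ' hτ' t]
      exact hδ' τ hτ τ' hτ' h t.1 t.2 t.1 t.2 1 h1mem
    linarith
  obtain ⟨n, hn⟩ := exists_nat_gt (1 / δ)
  have hn0 : 0 < n := by
    have : (0 : ℝ) < n := lt_trans (by positivity) hn
    exact_mod_cast this
  have hnR : (0 : ℝ) < n := by exact_mod_cast hn0
  have hmemI : ∀ k : ℕ, k ≤ n → (1 - (k : ℝ) / n) ∈ Icc (0 : ℝ) 1 := by
    intro k hk
    have h1 : (k : ℝ) / n ≤ 1 := by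
      rw [div_le_one hnR]; exact_mod_cast hk
    have h2 : 0 ≤ (k : ℝ) / n := by positivity
    constructor <;> linarith
  have hchain : ∀ k : ℕ, k ≤ n → Eqv (q 1) (q (1 - (k : ℝ) / n)) := by
    intro k
    induction k with
    | zero =>
      intro _
      have e : (1 : ℝ) - ((0 : ℕ) : ℝ) / n = 1 := by simp
      rw [e]
      have h1 : (1 : ℝ) ∈ Icc (0 : ℝ) 1 := ⟨zero_le_one, le_rfl⟩
      exact Eqv.rfl (hqs 1 h1) (hqq 1 h1)
    | succ k ih =>
      intro hk
      have h1 := ih (by omega)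
      refine Eqv.trans (hqq 1 ⟨zero_le_one, le_rfl⟩) (hqq _ (hmemI _ hk)) h1
        (hstep _ (hmemI k (by omega)) _ (hmemI (k + 1) hk) ?_)
      have e : (1 - (k : ℝ) / n) - (1 - ((k + 1 : ℕ) : ℝ) / n) = 1 / n := by
        push_cast; field_simp; ring
      rw [e, abs_of_pos (by positivity)]
      rw [div_lt_iff₀ hδ] at hn
      rw [div_lt_iff₀ hnR]
      linarith [mul_comm (n : ℝ) δ]
  have h10 := hchain n le_rfl
  have e0 : (1 : ℝ) - (n : ℝ) / n = 0 := by
    rw [div_self hnR.ne', sub_self]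
  rw [e0] at h10
  obtain ⟨a, ha1, ha2⟩ := h10
  have hmem := rep.mem a
  classical
  refine ⟨fun u => if h : u ∈ XX G.d then rep.ev ⟨u, h⟩ a else 0, ?_⟩
  have hval : ∀ (u : Pt) (hu : u ∈ XX G.d),
      (if h : u ∈ XX G.d then rep.ev ⟨u, h⟩ a else 0) = rep.ev ⟨u, hu⟩ a := by
    intro u hu
    rw [dif_pos hu]
  have hKF : KF G.d (fun t => rep.ev t a) := hmem
  refine { sc := ?_, even := ?_, source := ?_, range := ?_ }
  · obtain ⟨C, hC⟩ := hKF.bdd
    refine { bdd := ⟨C, ?_⟩, cont := ?_, cont' := ?_ }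
    · intro u hu
      rw [hval u hu]
      exact hC ⟨u, hu⟩
    · intro ξ
      rw [continuousOn_iff_continuous_domRestrict]
      refine (hKF.cont ξ).congr ?_
      rintro ⟨u, hu⟩
      simp only [Set.domRestrict_apply]
      rw [hval u hu]
    · intro ξ
      rw [continuousOn_iff_continuous_domRestrict]
      refine (hKF.cont' ξ).congr ?_
      rintro ⟨u, hu⟩
      simp only [Set.domRestrict_apply]
      rw [hval u hu]
  · intro u hu k
    have hf : flp k u ∈ XX G.d := hI.flp G.d u hu k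
    rw [hval u hu, hval _ hf]
    exact hKF.even ⟨u, hu⟩ ⟨_, hf⟩ k rfl
  · intro u hu
    rw [hval u hu, ← map_star, ← map_mul, ha1, hq 1 ⟨zero_le_one, le_rfl⟩ ⟨u, hu⟩,
      hP.bd1 u hu u hu 1 h1mem]
    simp only [star_one, mul_one]
  · intro u hu
    rw [hval u hu, ← map_star, ← map_mul, ha2, hq 0 ⟨le_rfl, zero_le_one⟩ ⟨u, hu⟩]

end Pool.Agent.Y547.EL
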