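import Pool.Agent.Y269.EL.Stm2
import Pool.Agent.Helper133.GG1

/-!
Anticommuting unitaries, isometries with orthogonal ranges and row operators on a Hilbert space.
-/

set_option autoImplicit false

namespace Pool.Agent.Y547.EL

open Filter Topology
open scoped ComplexInnerProductSpace symmDiff ENNReal
open Pool.Agent.Helper133.GG (tog pr tog_tog tog_comm pr_tog norm_pr conj_pr pr_mul_self two_pos')

noncomputable section

/-- the index set -/
abbrev II : Type := ℕ × Finset ℕ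

/-- square summable functions on the index set -/
abbrev KK : Type := lp (fun _ : II => ℂ) 2

lemma summ (f : KK) : Summable fun x => ‖f x‖ ^ (2 : ℕ) := by
  have h := (lp.memℓp f).summable two_pos'
  refine h.congr fun x => ?_
  norm_num

lemma nsq (f : KK) : ‖f‖ ^ (2 : ℕ) = ∑' x, ‖f x‖ ^ (2 : ℕ) := by
  have h := lp.norm_rpow_eq_tsum two_pos' f
  norm_num at h
  exact h

lemma mem_of (g : II → ℂ) (h : Summable fun x => ‖g x‖ ^ (2 : ℕ)) : Memℓp g 2 := by
  apply memℓp_gen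
  refine h.congr fun x => ?_
  norm_num

lemma mulA (A B : KK →L[ℂ] KK) (f : KK) : (A * B) f = A (B f) := rfl

lemma negA (A : KK →L[ℂ] KK) (f : KK) : (-A) f = -(A f) := rfl

lemma oneA (f : KK) : (1 : KK →L[ℂ] KK) f = f := rfl

lemma ext_op {A B : KK →L[ℂ] KK} (h : ∀ f x, A f x = B f x) : A = B :=
  ContinuousLinearMap.ext fun f => lp.ext (funext fun x => h f x)

/-- a bounded linear operator from a pointwise formula -/
theorem mk_op (Φ : KK → II → ℂ) (C : ℝ) (hC : 0 ≤ C)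
    (hadd : ∀ f g x, Φ (f + g) x = Φ f x + Φ g x) (hsmul : ∀ (c : ℂ) f x, Φ (c • f) x = c * Φ f x)
    (hs : ∀ f, Summable fun x => ‖Φ f x‖ ^ (2 : ℕ))
    (hb : ∀ f, ∑' x, ‖Φ f x‖ ^ (2 : ℕ) ≤ C ^ 2 * ‖f‖ ^ 2) :
    ∃ Y : KK →L[ℂ] KK, (∀ f x, Y f x = Φ f x) ∧ ‖Y‖ ≤ C := by
  let L : KK →ₗ[ℂ] KK :=
    { toFun := fun f => ⟨Φ f, mem_of _ (hs f)⟩
      map_add' := fun f g => lp.ext (funext fun x => by
        rw [lp.coeFn_add, Pi.add_apply]; exact hadd f g x)
      map_smul' := fun c f => lp.ext (funext fun x => by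
        rw [lp.coeFn_smul, Pi.smul_apply, smul_eq_mul]; exact hsmul c f x) }
  have hL : ∀ f x, L f x = Φ f x := fun f x => rfl
  have hbd : ∀ f, ‖L f‖ ≤ C * ‖f‖ := by
    intro f
    have h1 : ‖L f‖ ^ 2 ≤ (C * ‖f‖) ^ 2 := by
      rw [nsq, mul_pow]
      exact hb f
    exact le_of_sq_le_sq h1 (by positivity)
  exact ⟨L.mkContinuous C hbd, fun f x => rfl, L.mkContinuous_norm_le hC hbd⟩

/-- the toggling of the second coordinate -/
def tg (i : ℕ) : II ≃ II := Equiv.prodCongr (Equiv.refl ℕ) (tog i)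

lemma tg_apply (i : ℕ) (x : II) : tg i x = (x.1, tog i x.2) := rfl

theorem exists_ga (i : ℕ) : ∃ Y : KK →L[ℂ] KK,
    (∀ f x, Y f x = pr (fun j => j < i) x.2 * f (x.1, tog i x.2)) ∧ ‖Y‖ ≤ 1 := by
  have hn : ∀ (f : KK) (x : II), ‖pr (fun j => j < i) x.2 * f (x.1, tog i x.2)‖ ^ (2 : ℕ) =
      ‖f (tg i x)‖ ^ (2 : ℕ) := by
    intro f x
    rw [norm_mul, norm_pr, one_mul]; rfl
  refine mk_op _ 1 zero_le_one ?_ ?_ ?_ ?_
  · intro f g x
    rw [lp.coeFn_add, Pi.add_apply, mul_add]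
  · intro c f x
    rw [lp.coeFn_smul, Pi.smul_apply, smul_eq_mul]; ring
  · intro f
    exact ((tg i).summable_iff.mpr (summ f)).congr fun x => (hn f x).symm
  · intro f
    rw [tsum_congr (hn f), (tg i).tsum_eq (fun x => ‖f x‖ ^ (2 : ℕ)), nsq]
    simp

/-- the shifting injection -/
def jj (m : ℕ) (x : II) : II := (Nat.pair m x.1, x.2)

lemma jj_inj (m : ℕ) : Function.Injective (jj m) := by
  rintro ⟨a, S⟩ ⟨b, T⟩ h
  simp only [jj, Prod.mk.injEq] at h
  have := (Nat.pair_eq_pair.mp h.1).2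
  rw [this, h.2]

/-- the decomposition of the index set -/
def ee : ℕ × II ≃ II where
  toFun p := jj p.1 p.2
  invFun x := ((Nat.unpair x.1).1, ((Nat.unpair x.1).2, x.2))
  left_inv p := by simp [jj]
  right_inv x := by simp [jj]

lemma ee_apply (m : ℕ) (x : II) : ee (m, x) = jj m x := rfl

theorem exists_Q (m : ℕ) : ∃ Y : KK →L[ℂ] KK, (∀ f x, Y f x = f (jj m x)) ∧ ‖Y‖ ≤ 1 := by
  refine mk_op _ 1 zero_le_one ?_ ?_ ?_ ?_
  · intro f g x
    rw [lp.coeFn_add, Pi.add_apply]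
  · intro c f x
    rw [lp.coeFn_smul, Pi.smul_apply, smul_eq_mul]
  · intro f
    exact (summ f).comp_injective (jj_inj m)
  · intro f
    rw [one_pow, one_mul, nsq]
    exact tsum_comp_le_tsum_of_inj (summ f) (fun x => by positivity) (jj_inj m)

/-- the extension by zero -/
def rf (m : ℕ) (f : KK) (x : II) : ℂ :=
  if (Nat.unpair x.1).1 = m then f ((Nat.unpair x.1).2, x.2) else 0

lemma rf_jj (m n : ℕ) (f : KK) (x : II) : rf m f (jj n x) = if n = m then f x else 0 := by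
  simp [rf, jj]

lemma rf_out (m : ℕ) (f : KK) (x : II) (hx : x ∉ Set.range (jj m)) : rf m f x = 0 := by
  rw [rf, if_neg]
  intro h
  refine hx ⟨((Nat.unpair x.1).2, x.2), ?_⟩
  simp [jj, ← h]

theorem exists_R (m : ℕ) : ∃ Y : KK →L[ℂ] KK, (∀ f x, Y f x = rf m f x) ∧ ‖Y‖ ≤ 1 := by
  have hc : ∀ f : KK, (fun x => ‖rf m f x‖ ^ (2 : ℕ)) ∘ jj m = fun x => ‖f x‖ ^ (2 : ℕ) := by
    intro f
    funext x
    simp [Function.comp, rf_jj]
  refine mk_op _ 1 zero_le_one ?_ ?_ ?_ ?_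
  · intro f g x
    simp only [rf, lp.coeFn_add, Pi.add_apply]
    split_ifs <;> simp
  · intro c f x
    simp only [rf, lp.coeFn_smul, Pi.smul_apply, smul_eq_mul]
    split_ifs <;> simp
  · intro f
    rw [← (jj_inj m).summable_iff, hc]
    · exact summ f
    · intro x hx
      simp [rf_out m f x hx]
  · intro f
    have h : ∑' x, ‖rf m f x‖ ^ (2 : ℕ) = ∑' x, ((fun x => ‖rf m f x‖ ^ (2 : ℕ)) ∘ jj m) x := by
      refine ((jj_inj m).tsum_eq ?_).symm
      intro x hx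
      by_contra h
      exact hx (by simp [rf_out m f x h])
    rw [h, hc, one_pow, one_mul, nsq]

/-- the anticommuting unitaries -/
def ga (i : ℕ) : KK →L[ℂ] KK := (exists_ga i).choose

lemma ga_apply (i : ℕ) (f : KK) (x : II) :
    ga i f x = pr (fun j => j < i) x.2 * f (x.1, tog i x.2) := (exists_ga i).choose_spec.1 f x

/-- the compressions -/
def Q (m : ℕ) : KK →L[ℂ] KK := (exists_Q m).choose

lemma Q_apply (m : ℕ) (f : KK) (x : II) : Q m f x = f (jj m x) := (exists_Q m).choose_spec.1 f x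

/-- the isometries -/
def R (m : ℕ) : KK →L[ℂ] KK := (exists_R m).choose

lemma R_apply (m : ℕ) (f : KK) (x : II) : R m f x = rf m f x := (exists_R m).choose_spec.1 f x

lemma ga_star (i : ℕ) : star (ga i) = ga i := by
  rw [ContinuousLinearMap.star_eq_adjoint]
  symm
  rw [ContinuousLinearMap.eq_adjoint_iff]
  intro f g
  rw [lp.inner_eq_tsum, lp.inner_eq_tsum, ← (tg i).tsum_eq]
  refine tsum_congr ?_
  intro x
  rw [ga_apply, ga_apply, tg_apply]
  simp only [tog_tog, pr_tog, lt_irrefl, if_false, one_mul, RCLike.inner_apply, map_mul, conj_pr]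
  ring

lemma ga_sq (i : ℕ) : ga i * ga i = 1 := by
  refine ext_op fun f x => ?_
  rw [mulA, ga_apply, ga_apply, tog_tog, pr_tog, oneA]
  have := pr_mul_self (fun j => j < i) x.2
  simp only [lt_irrefl, if_false, one_mul]
  rw [← mul_assoc, this, one_mul]

lemma ga_anti {i j : ℕ} (h : i ≠ j) : ga i * ga j = -(ga j * ga i) := by
  refine ext_op fun f x => ?_
  rw [negA, lp.coeFn_neg, Pi.neg_apply]
  simp only [mulA, ga_apply, pr_tog]
  rw [tog_comm j i]
  rcases lt_or_gt_of_ne h with h' | h'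
  · rw [if_pos h', if_neg (not_lt.mpr h'.le)]; ring
  · rw [if_pos h', if_neg (not_lt.mpr h'.le)]; ring

lemma R_star (m : ℕ) : star (R m) = Q m := by
  rw [ContinuousLinearMap.star_eq_adjoint]
  symm
  rw [ContinuousLinearMap.eq_adjoint_iff]
  intro f g
  rw [lp.inner_eq_tsum, lp.inner_eq_tsum]
  have h : ∑' x, inner ℂ (f x) (R m g x) = ∑' x, (fun x => inner ℂ (f x) (R m g x)) (jj m x) := by
    refine ((jj_inj m).tsum_eq ?_).symm
    intro x hx
    by_contra h
    exact hx (by simp [R_apply, rf_out m g x h])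
  rw [h]
  refine tsum_congr ?_
  intro x
  simp only [Q_apply, R_apply, rf_jj, if_true]

lemma R_orth (i j : ℕ) : star (R i) * R j = if i = j then 1 else 0 := by
  rw [R_star]
  refine ext_op fun f x => ?_
  rw [mulA, Q_apply, R_apply, rf_jj]
  split_ifs
  · rfl
  · rfl

lemma R_ga (m i : ℕ) : R m * ga i = ga i * R m := by
  refine ext_op fun f x => ?_
  rw [mulA, mulA, ga_apply, R_apply, R_apply, rf, rf]
  split_ifs
  · rw [ga_apply]
  · simp

lemma parseval (f : KK) : HasSum (fun m => ‖(star (R m)) f‖ ^ 2) (‖f‖ ^ 2) := by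
  have h1 : HasSum (fun x => ‖f x‖ ^ (2 : ℕ)) (‖f‖ ^ 2) := by
    rw [nsq]; exact (summ f).hasSum
  have h2 : HasSum ((fun x => ‖f x‖ ^ (2 : ℕ)) ∘ ee) (‖f‖ ^ 2) := ee.hasSum_iff.mpr h1
  refine h2.prod_fiberwise fun m => ?_
  rw [R_star, nsq]
  have h3 : Summable fun x => ‖(Q m f) x‖ ^ (2 : ℕ) := summ _
  have h4 := h3.hasSum
  simp only [Q_apply] at h4 ⊢
  exact h4

lemma fs (X : ℕ → (KK →L[ℂ] KK)) (C : ℝ) (hC : 0 ≤ C)
    (h : ∀ (N : ℕ) (f : KK), ∑ m ∈ Finset.range N, ‖X m f‖ ^ 2 ≤ C ^ 2 * ‖f‖ ^ 2) :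
    ∃ Y : KK →L[ℂ] KK, (∀ m, star (R m) * Y = X m) ∧ ‖Y‖ ≤ C := by
  let Φ : KK → II → ℂ := fun f x => X (Nat.unpair x.1).1 f ((Nat.unpair x.1).2, x.2)
  have hΦ : ∀ f m x, Φ f (jj m x) = X m f x := by
    intro f m x
    simp [Φ, jj]
  have hp : ∀ f : KK, Summable (fun p : ℕ × II => ‖X p.1 f p.2‖ ^ (2 : ℕ)) := by
    intro f
    rw [summable_prod_of_nonneg (fun p => by positivity)]
    refine ⟨fun m => summ (X m f), ?_⟩
    have e : (fun m => ∑' y, ‖X m f y‖ ^ (2 : ℕ)) = fun m => ‖X m f‖ ^ 2 := by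
      funext m; rw [nsq]
    simp only [e]
    exact summable_of_sum_range_le (fun m => by positivity) (fun N => h N f)
  have hcomp : ∀ f : KK, (fun x => ‖Φ f x‖ ^ (2 : ℕ)) ∘ ee =
      fun p : ℕ × II => ‖X p.1 f p.2‖ ^ (2 : ℕ) := by
    intro f
    funext p
    obtain ⟨m, x⟩ := p
    simp only [Function.comp, ee_apply, hΦ]
  obtain ⟨Y, hY, hn⟩ := mk_op Φ C hC
    (by
      intro f g x
      simp only [Φ, map_add, lp.coeFn_add, Pi.add_apply])
    (by
      intro c f x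
      simp only [Φ, map_smul, lp.coeFn_smul, Pi.smul_apply, smul_eq_mul])
    (by
      intro f
      rw [← ee.summable_iff, hcomp]
      exact hp f)
    (by
      intro f
      rw [← ee.tsum_eq (fun x => ‖Φ f x‖ ^ (2 : ℕ))]
      have e1 : ∑' p, ‖Φ f (ee p)‖ ^ (2 : ℕ) = ∑' p : ℕ × II, ‖X p.1 f p.2‖ ^ (2 : ℕ) :=
        congrArg (fun F => tsum F) (hcomp f)
      rw [e1, (hp f).tsum_prod]
      have e : (fun m => ∑' y, ‖X m f y‖ ^ (2 : ℕ)) = fun m => ‖X m f‖ ^ 2 := by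
        funext m; rw [nsq]
      simp only [e]
      exact Real.tsum_le_of_sum_range_le (fun m => by positivity) (fun N => h N f))
  refine ⟨Y, fun m => ?_, hn⟩
  rw [R_star]
  refine ext_op fun f x => ?_
  rw [mulA, Q_apply, hY, hΦ]

theorem exists_basis : Nonempty (HilbertBasis ℕ ℂ KK) := by
  let b : HilbertBasis II ℂ KK := HilbertBasis.ofRepr (LinearIsometryEquiv.refl ℂ KK)
  obtain ⟨e⟩ : Nonempty (ℕ ≃ II) := nonempty_equiv_of_countable
  refine ⟨HilbertBasis.mk (v := fun n => b (e n)) (b.orthonormal.comp e e.injective) ?_⟩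
  have hr : Set.range (fun n => b (e n)) = Set.range b := by
    exact e.surjective.range_comp b
  rw [hr, b.dense_span]

/-- the operators exist -/
theorem amb : Pool.Agent.Y269.EL.AmbStmt := by
  obtain ⟨b⟩ := exists_basis
  exact ⟨KK, inferInstance, inferInstance, inferInstance, ⟨{
    ga := ga
    R := R
    b := b
    ga_star := ga_star
    ga_sq := ga_sq
    ga_anti := fun i j h => ga_anti h
    R_orth := R_orth
    R_ga := R_ga
    parseval := parseval
    fs := fs }⟩⟩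

end

end Pool.Agent.Y547.EL
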